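import Pool.Agent.R309.PB.Core

/-!
# MP_b2dc7d_gt, Q1: the answer is NO

There are a group whose finitary ballean is pseudobounded and a slowly oscillating function on it
that is not constant at infinity.  The construction (files in `Pool/Agent/R309/PB`, proof in
`notes.md` there): starting from `ℤ` with the indicator function of the nonnegative integers, one
adjoins (uncountably often) solutions `a, b, c, d` of the systems of equations
`U_i(c, d) = U_i(a, b) x_i` (`i ∈ ℕ`) for all sequences `x` and extends the slowly oscillating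
function.
-/

namespace Pool.Agent.Results.MP_b2dc7d_gt.NotConstant

open scoped Topology

/-- the entourage `E_F = {(x,y) : y ∈ {x} ∪ F x}` -/
def entourage {G : Type*} [Group G] (F : Set G) : Set (G × G) :=
  {p | p.2 ∈ insert p.1 ((fun f => f * p.1) '' F)}

/-- `E_F[x] = {y : (x,y) ∈ E_F}` -/
def eball {G : Type*} [Group G] (F : Set G) (x : G) : Set G := {y | (x, y) ∈ entourage F}

/-- slowly oscillating functions on the finitary ballean of `G` -/
def SlowlyOscillating {G : Type*} [Group G] (φ : G → ℝ) : Prop :=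
  ∀ ε : ℝ, 0 < ε → ∀ F : Set G, F.Finite →
    ∃ B : Set G, B.Finite ∧ ∀ x, x ∉ B → Metric.diam (φ '' eball F x) < ε

/-- the finitary ballean of `G` is pseudobounded -/
def Pseudobounded (G : Type*) [Group G] : Prop :=
  ∀ φ : G → ℝ, SlowlyOscillating φ → ∃ B : Set G, B.Finite ∧ Bornology.IsBounded (φ '' Bᶜ)

def ConstantAtInfinity {G : Type*} [Group G] (φ : G → ℝ) : Prop :=
  ∃ c : ℝ, ∀ U ∈ 𝓝 c, ((φ ⁻¹' U)ᶜ).Finite

theorem eball_eq {G : Type*} [Group G] (F : Set G) (x : G) :
    eball F x = insert x ((fun f => f * x) '' F) := rfl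

theorem SO_of_slowly {G : Type*} [Group G] {φ : G → ℝ} (h : SlowlyOscillating φ) : PB.SO φ := by
  intro f ε hε
  obtain ⟨B, hB, hB'⟩ := h ε hε {f} (Set.finite_singleton f)
  refine hB.subset ?_
  intro x hx
  by_contra hcon
  have h1 := hB' x hcon
  have hx' : ε ≤ |φ (f * x) - φ x| := hx
  have hfin : (φ '' eball {f} x).Finite := by
    rw [eball_eq]
    exact (((Set.finite_singleton f).image _).insert _).image _
  have h2 : dist (φ (f * x)) (φ x) ≤ Metric.diam (φ '' eball {f} x) := by
    apply Metric.dist_le_diam_of_mem hfin.isBounded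
    · exact ⟨f * x, by rw [eball_eq]; right; exact ⟨f, rfl, rfl⟩, rfl⟩
    · exact ⟨x, by rw [eball_eq]; left; rfl, rfl⟩
  rw [Real.dist_eq] at h2
  linarith

theorem slowly_of_SO {G : Type*} [Group G] {φ : G → ℝ} (h : PB.SO φ) : SlowlyOscillating φ := by
  intro ε hε F hF
  refine ⟨⋃ f ∈ F, {x : G | ε / 4 ≤ |φ (f * x) - φ x|}, hF.biUnion fun f _ => h f (ε / 4)
    (by linarith), ?_⟩
  intro x hx
  have hx' : ∀ y ∈ eball F x, |φ y - φ x| ≤ ε / 4 := by
    intro y hy
    rw [eball_eq] at hy
    rcases hy with rfl | ⟨f, hf, rfl⟩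
    · simp; linarith
    · by_contra hcon
      apply hx
      simp only [Set.mem_iUnion]
      exact ⟨f, hf, (not_le.mp hcon).le⟩
  have : Metric.diam (φ '' eball F x) ≤ ε / 2 := by
    apply Metric.diam_le_of_forall_dist_le (by linarith)
    rintro _ ⟨y, hy, rfl⟩ _ ⟨z, hz, rfl⟩
    rw [Real.dist_eq]
    have h1 := hx' y hy
    have h2 := hx' z hz
    have h3 : |φ y - φ z| ≤ |φ y - φ x| + |φ x - φ z| := abs_sub_le _ _ _
    rw [abs_sub_comm (φ x)] at h3
    linarith
  linarith

theorem not_const {G : Type*} [Group G] {φ : G → ℝ} (h0 : {x | φ x = 0}.Infinite)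
    (h1 : {x | φ x = 1}.Infinite) : ¬ ConstantAtInfinity φ := by
  rintro ⟨c, hc⟩
  have hU := hc (Metric.ball c (1 / 3)) (Metric.ball_mem_nhds _ (by norm_num))
  by_cases hz : (0 : ℝ) ∈ Metric.ball c (1 / 3)
  · apply h1
    refine hU.subset ?_
    intro x hx hh
    have hx' : φ x = 1 := hx
    have hh' : φ x ∈ Metric.ball c (1 / 3) := hh
    rw [hx'] at hh'
    rw [Metric.mem_ball, Real.dist_eq, abs_lt] at hz hh'
    linarith [hz.1, hz.2, hh'.1, hh'.2]
  · apply h0
    refine hU.subset ?_
    intro x hx hh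
    have hx' : φ x = 0 := hx
    have hh' : φ x ∈ Metric.ball c (1 / 3) := hh
    rw [hx'] at hh'
    exact hz hh'

/-- There are a group whose finitary ballean is pseudobounded and a slowly oscillating function on
it that is not constant at infinity. -/
theorem result : ∃ (G : Type) (_ : Group G), Pseudobounded G ∧
    ∃ φ : G → ℝ, SlowlyOscillating φ ∧ ¬ ConstantAtInfinity φ := by
  obtain ⟨G, hG, -, hb, φ, hφ, h0, h1⟩ := PB.core
  refine ⟨G, hG, ?_, φ, slowly_of_SO hφ, not_const h0 h1⟩
  intro ψ hψ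
  obtain ⟨C, hC⟩ := hb ψ (SO_of_slowly hψ)
  refine ⟨∅, Set.finite_empty, ?_⟩
  rw [isBounded_iff_forall_norm_le]
  refine ⟨C, ?_⟩
  rintro _ ⟨x, -, rfl⟩
  exact hC x

end Pool.Agent.Results.MP_b2dc7d_gt.NotConstant
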